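import Pool.Agent.Lib.MP_28303a_al.TW.Graph
import Pool.Agent.Lib.MP_28303a_al.WR.H48.Pswap
import Pool.Agent.Lib.MP_28303a_al.NK.H91.KTr
import Pool.Agent.Lib.MP_28303a_al.NK.H78.Lreg
import Pool.Agent.Lib.MP_28303a_al.NK.H50.Ext

/-! # PRODZ: products with `ℤ` -/

set_option autoImplicit false
set_option linter.unusedSectionVars false
set_option linter.unusedVariables false

namespace Pool.Agent.NegK.TW.H6

universe u v w

open Matrix MonoidAlgebra

/-- `R[G × Z] ≃ R[Z][G]`. -/
noncomputable abbrev cur (R : Type u) [Ring R] (G : Type u) (Z : Type) [Group G] [Group Z] :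
    MonoidAlgebra R (G × Z) ≃+* MonoidAlgebra (MonoidAlgebra R Z) G :=
  MonoidAlgebra.curryRingEquiv (R := R) (M := G) (N := Z)

/-- Transport of the change of coefficients: if `e` is an isomorphism `R'[Z] ≃ T` under `R[Z]`
then `K₀(R[Z][G]) → K₀(T[G])` onto implies `K₀(R[G × Z]) → K₀(R'[G × Z])` onto. -/
theorem surj_prod {R R' : Type u} [Ring R] [Ring R'] (G : Type u) (Z : Type) [Group G] [Group Z]
    (φ : R →+* R') {T : Type u} [Ring T] (e : MonoidAlgebra R' Z ≃+* T)
    (ψ : MonoidAlgebra R Z →+* T)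
    (he : ∀ (z : Z) (r : R), e (single z (φ r)) = ψ (single z r))
    (h : Function.Surjective (K0.map (cmap G ψ))) :
    Function.Surjective (K0.map (MonoidAlgebra.mapRingHom (G × Z) φ)) := by
  have e2 : MonoidAlgebra.mapRingHom (G × Z) φ =
      (((cur R' G Z).trans (MonoidAlgebra.mapRingEquiv G e)).symm : _ →+* _).comp
        ((cmap G ψ).comp (cur R G Z : _ →+* _)) := by
    have key : ∀ (g : G) (z : Z) (r : R),
        MonoidAlgebra.mapRingEquiv G e (cur R' G Z
          (MonoidAlgebra.mapRingHom (G × Z) φ (single (g, z) r))) =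
        cmap G ψ (cur R G Z (single (g, z) r)) := by
      intro g z r
      rw [MonoidAlgebra.mapRingHom_single, MonoidAlgebra.curryRingEquiv_single,
        MonoidAlgebra.curryRingEquiv_single, MonoidAlgebra.mapRingEquiv_single, cmap_single, he]
    refine MonoidAlgebra.ringHom_ext (fun r => ?_) (fun g => ?_)
    · show _ = (((cur R' G Z).trans (MonoidAlgebra.mapRingEquiv G e)).symm : _ ≃+* _)
        (cmap G ψ (cur R G Z (single 1 r)))
      rw [RingEquiv.eq_symm_apply]
      exact key 1 1 r
    · show _ = (((cur R' G Z).trans (MonoidAlgebra.mapRingEquiv G e)).symm : _ ≃+* _)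
        (cmap G ψ (cur R G Z (single g 1)))
      rw [RingEquiv.eq_symm_apply]
      exact key g.1 g.2 1
  rw [e2]
  exact H64.K0.surj_comp _ _ (H64.K0.surj_equiv _) (H64.K0.surj_comp _ _ h (H64.K0.surj_equiv _))

theorem swapEquiv_single' (R : Type u) [Ring R] (Z : Type) [Group Z] (z : Z) (r : R) :
    H64.swapEquiv R Z (single z (LaurentPolynomial.C r)) =
      LaurentPolynomial.C (single z r) := by
  show (AddMonoidAlgebra.toMultiplicative (MonoidAlgebra R Z) ℤ).symm
    (MonoidAlgebra.commRingEquiv (R := R) (M := Multiplicative ℤ) (N := Z)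
      (MonoidAlgebra.mapRingEquiv Z (AddMonoidAlgebra.toMultiplicative R ℤ)
        (MonoidAlgebra.single z (AddMonoidAlgebra.single 0 r)))) = _
  rw [MonoidAlgebra.mapRingEquiv_single, AddMonoidAlgebra.toMultiplicative_single,
    MonoidAlgebra.commRingEquiv_single_single, RingEquiv.symm_apply_eq]
  exact (AddMonoidAlgebra.toMultiplicative_single _ _).symm

theorem pswapEquiv_single' (R : Type u) [Ring R] (Z : Type) [Group Z] (z : Z) (r : R) :
    WR.H48.pswapEquiv R Z (single z (Polynomial.C r)) = Polynomial.C (single z r) :=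
  WR.H48.pswapEquiv_single R Z z 0 r

theorem inS_prod (G : Type u) (Z : Type) [Group G] [Group Z]
    (hZ : ∀ (R : Type u) [Ring R], RegularRing R → RegularRing (MonoidAlgebra R Z))
    (hG : InS G) : InS (G × Z) := by
  intro R _ hR
  obtain ⟨h1, h2⟩ := hG (MonoidAlgebra R Z) (hZ R hR)
  exact ⟨surj_prod G Z _ (WR.H48.pswapEquiv R Z) Polynomial.C (pswapEquiv_single' R Z) h1,
    surj_prod G Z _ (H64.swapEquiv R Z) LaurentPolynomial.C (swapEquiv_single' R Z) h2⟩

theorem regular_int (R : Type u) [Ring R] (hR : RegularRing R) :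
    RegularRing (MonoidAlgebra R (Multiplicative ℤ)) :=
  H91.regularRing_transfer (AddMonoidAlgebra.toMultiplicative R ℤ) (H78.lreg H50.ext R hR)

/-- PRODZ. -/
theorem prodz (hrci : RciStatement.{u}) : ProdzStatement.{u} := by
  refine ⟨fun G _ hG => inS_prod G _ regular_int hG, fun G _ hG R _ hR => ?_⟩
  exact hrci.1 _ _ (cur R G (Multiplicative ℤ)).symm (hG _ (regular_int R hR))

end Pool.Agent.NegK.TW.H6
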