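import Pool.Agent.Lib.MP_28303a_al.TW.Graph

/-! # UNI: directed unions -/

set_option autoImplicit false
set_option linter.unusedSectionVars false
set_option linter.unusedVariables false

namespace Pool.Agent.NegK.TW.H6

universe u v w

open Matrix MonoidAlgebra

theorem mdr_comp_cmap {k k' G H : Type u} [Ring k] [Ring k'] [Group G] [Group H] (φ : k →+* k')
    (f : G →* H) : (mdr k' f).comp (cmap G φ) = (cmap H φ).comp (mdr k f) := by
  refine MonoidAlgebra.ringHom_ext (fun r => ?_) (fun a => ?_)
  · simp only [RingHom.comp_apply, mdr_single, cmap_single]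
  · simp only [RingHom.comp_apply, mdr_single, cmap_single]

/-- Surjectivity of the change of coefficients passes to directed unions. -/
theorem surj_union {k k' G : Type u} [Ring k] [Ring k'] [Group G] (φ : k →+* k')
    (h : ∀ S : Finset G, ∃ H : Subgroup G, (∀ s ∈ S, s ∈ H) ∧
      Function.Surjective (K0.map (cmap H φ))) :
    Function.Surjective (K0.map (cmap G φ)) := by
  classical
  rw [← AddMonoidHom.range_eq_top, eq_top_iff]
  intro z _
  refine Pool.Agent.NegK.H50.K0_eq_top (H := (K0.map (cmap G φ)).range) ?_ z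
  intro p
  obtain ⟨H, hS, hH⟩ := h (Finset.univ.biUnion fun a => Finset.univ.biUnion fun b =>
      (p.e a b).coeff.support)
  have hF : Function.Injective H.subtype := H.subtype_injective
  have hsupp : MSupp (Set.range H.subtype) p.e := by
    rintro a b g hg
    refine ⟨⟨g, hS g ?_⟩, rfl⟩
    rw [Finset.mem_biUnion]
    refine ⟨a, Finset.mem_univ _, ?_⟩
    rw [Finset.mem_biUnion]
    exact ⟨b, Finset.mem_univ _, Finsupp.mem_support_iff.2 hg⟩
  obtain ⟨β, hβ⟩ := MSupp.exists_map hF hsupp
  have hinj : Function.Injective (fun γ : Matrix _ _ (MonoidAlgebra k' H) =>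
      (γ.map (mdr k' H.subtype) : Matrix (Fin p.n) (Fin p.n) _)) := by
    intro x y hxy
    ext1 a b
    exact mdr_injective hF (congrFun (congrFun hxy a) b)
  have hidem : β * β = β := by
    apply hinj
    show (β * β).map (mdr k' H.subtype) = β.map (mdr k' H.subtype)
    rw [Matrix.map_mul, hβ, p.idem]
  obtain ⟨x, hx⟩ := hH (mcls β hidem)
  refine ⟨K0.map (mdr k H.subtype) x, ?_⟩
  have h1 : K0.map (mdr k' H.subtype) (mcls β hidem) = mcls p.e p.idem := by
    rw [mcls_map]
    exact mcls_congr _ hβ
  rw [← mcls_self p, ← h1, ← hx, k0_map_map, k0_map_map, mdr_comp_cmap]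

/-- UNI. -/
theorem uni : UniStatement.{u} := by
  intro G _ h R _ hR
  exact ⟨surj_union _ fun S => (h S).imp fun H hH => ⟨hH.1, (hH.2 R hR).1⟩,
    surj_union _ fun S => (h S).imp fun H hH => ⟨hH.1, (hH.2 R hR).2⟩⟩

end Pool.Agent.NegK.TW.H6
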